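import Pool.Agent.Helper33.KV.Defs

/-!
# Project KV: closure properties of the class `HInf`
-/

namespace Pool.Agent.Helper26.KV

open Real MeasureTheory Set Filter Topology
open Pool.Agent.Helper33.KV Pool.Agent.Helper41.KV

/-- Sup bound by the `H¹` norm. -/
theorem sup_sq_le {f : ℝ → ℝ} (hf : ContDiff ℝ 1 f) (h0 : MemLp f 2) (h1 : MemLp (deriv f) 2)
    (x : ℝ) : f x ^ 2 ≤ (∫ y, f y ^ 2) + ∫ y, deriv f y ^ 2 := by
  have i0 : Integrable (fun y => f y ^ 2) := h0.integrable_sq
  have i1 : Integrable (fun y => deriv f y ^ 2) := h1.integrable_sq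
  have hd : ∀ y, HasDerivAt (fun z => f z ^ 2) (2 * f y * deriv f y) y := by
    intro y
    have := ((hf.differentiable (by norm_num)) y).hasDerivAt.pow 2
    refine this.congr_deriv ?_
    norm_num
  have i2 : Integrable (fun y => 2 * f y * deriv f y) := by
    have : Integrable (fun y => f y * deriv f y) := h0.integrable_mul h1
    refine (this.const_mul 2).congr (Eventually.of_forall fun y => ?_)
    simp only; ring
  have ht : Tendsto (fun y => f y ^ 2) atBot (𝓝 0) :=
    tendsto_zero_of_hasDerivAt_of_integrableOn_Iic (a := 0) (fun y _ => hd y)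
      i2.integrableOn i0.integrableOn
  have e := integral_Iic_of_hasDerivAt_of_tendsto' (a := x) (fun y _ => hd y) i2.integrableOn ht
  rw [sub_zero] at e
  rw [← e]
  calc (∫ y in Iic x, 2 * f y * deriv f y) ≤ ∫ y in Iic x, (f y ^ 2 + deriv f y ^ 2) := by
        refine setIntegral_mono i2.integrableOn (i0.add i1).integrableOn fun y => ?_
        simp only
        nlinarith [sq_nonneg (f y - deriv f y)]
    _ ≤ ∫ y, (f y ^ 2 + deriv f y ^ 2) := by
        refine setIntegral_le_integral (i0.add i1) (Eventually.of_forall fun y => ?_)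
        simp only [Pi.zero_apply]
        positivity
    _ = _ := integral_add i0 i1

theorem hinf_mono {u : ℝ → ℝ → ℝ} {t1 t2 s1 s2 : ℝ} (h : HInf u t1 t2) (h1 : t1 ≤ s1)
    (h2 : s2 ≤ t2) : HInf u s1 s2 := by
  have hs : Icc s1 s2 ⊆ Icc t1 t2 := Icc_subset_Icc h1 h2
  exact ⟨fun t ht => h.smooth t (hs ht), fun k => (h.cont k).mono (prod_mono hs le_rfl),
    fun k t ht => h.memLp k t (hs ht), fun k => (h.bound k).imp fun C hC t ht => hC t (hs ht)⟩

/-- Uniform sup bounds of every derivative. -/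
theorem HInf_sup {u : ℝ → ℝ → ℝ} {t1 t2 : ℝ} (h : HInf u t1 t2) (k : ℕ) :
    ∃ C : ℝ, 0 ≤ C ∧ ∀ t ∈ Icc t1 t2, ∀ x, |iteratedDeriv k (u t) x| ≤ C := by
  obtain ⟨C0, hC0⟩ := h.bound k
  obtain ⟨C1, hC1⟩ := h.bound (k + 1)
  refine ⟨Real.sqrt (C0 + C1), Real.sqrt_nonneg _, fun t ht x => ?_⟩
  refine Real.abs_le_sqrt ?_
  have hs := h.smooth t ht
  have e : deriv (iteratedDeriv k (u t)) = iteratedDeriv (k + 1) (u t) := by
    rw [iteratedDeriv_succ]
  have hc : ContDiff ℝ 1 (iteratedDeriv k (u t)) := by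
    rw [iteratedDeriv_eq_iterate]
    exact ContDiff.iterate_deriv' 1 k (hs.of_le (by exact_mod_cast le_top))
  have := sup_sq_le hc (h.memLp k t ht) (by rw [e]; exact h.memLp (k + 1) t ht) x
  rw [e] at this
  linarith [hC0 t ht, hC1 t ht]

theorem hinf_congr {u v : ℝ → ℝ → ℝ} {t1 t2 : ℝ} (h : HInf u t1 t2)
    (e : ∀ t ∈ Icc t1 t2, v t = u t) : HInf v t1 t2 := by
  refine ⟨fun t ht => by rw [e t ht]; exact h.smooth t ht, fun k => ?_,
    fun k t ht => by rw [e t ht]; exact h.memLp k t ht,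
    fun k => (h.bound k).imp fun C hC t ht => by rw [e t ht]; exact hC t ht⟩
  refine (h.cont k).congr fun p hp => ?_
  simp only
  rw [e p.1 hp.1]

theorem HInf_deriv {u : ℝ → ℝ → ℝ} {t1 t2 : ℝ} (h : HInf u t1 t2) :
    HInf (fun t => deriv (u t)) t1 t2 := by
  refine ⟨fun t ht => ?_, fun k => ?_, fun k t ht => ?_, fun k => ?_⟩
  · exact (contDiff_infty_iff_deriv.1 (h.smooth t ht)).2
  · refine (h.cont (k + 1)).congr fun p _ => ?_
    simp only [iteratedDeriv_succ']
  · have := h.memLp (k + 1) t ht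
    rwa [iteratedDeriv_succ'] at this
  · obtain ⟨C, hC⟩ := h.bound (k + 1)
    refine ⟨C, fun t ht => ?_⟩
    have := hC t ht
    rwa [iteratedDeriv_succ'] at this

theorem HInf_neg {u : ℝ → ℝ → ℝ} {t1 t2 : ℝ} (h : HInf u t1 t2) :
    HInf (fun t x => - u t x) t1 t2 := by
  refine ⟨fun t ht => (h.smooth t ht).neg, fun k => ?_, fun k t ht => ?_, fun k => ?_⟩
  · refine (h.cont k).neg.congr fun p _ => ?_
    simp only [iteratedDeriv_fun_neg, Pi.neg_apply]
  · have e : iteratedDeriv k (fun x => - u t x) = - iteratedDeriv k (u t) := funext fun x => by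
      simp only [iteratedDeriv_fun_neg, Pi.neg_apply]
    rw [e]
    exact (h.memLp k t ht).neg
  · obtain ⟨C, hC⟩ := h.bound k
    refine ⟨C, fun t ht => ?_⟩
    simp only [iteratedDeriv_fun_neg, neg_sq]
    exact hC t ht

theorem HInf_add {u v : ℝ → ℝ → ℝ} {t1 t2 : ℝ} (h : HInf u t1 t2) (h' : HInf v t1 t2) :
    HInf (fun t x => u t x + v t x) t1 t2 := by
  have key : ∀ k : ℕ, ∀ t ∈ Icc t1 t2, ∀ x, iteratedDeriv k (fun x => u t x + v t x) x =
      iteratedDeriv k (u t) x + iteratedDeriv k (v t) x := by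
    intro k t ht x
    exact iteratedDeriv_fun_add ((h.smooth t ht).of_le (by exact_mod_cast le_top)).contDiffAt
      ((h'.smooth t ht).of_le (by exact_mod_cast le_top)).contDiffAt
  refine ⟨fun t ht => (h.smooth t ht).add (h'.smooth t ht), fun k => ?_, fun k t ht => ?_,
    fun k => ?_⟩
  · exact ((h.cont k).add (h'.cont k)).congr fun p hp => key k p.1 hp.1 p.2
  · have e : iteratedDeriv k (fun x => u t x + v t x) =
        iteratedDeriv k (u t) + iteratedDeriv k (v t) := funext fun x => key k t ht x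
    rw [e]
    exact (h.memLp k t ht).add (h'.memLp k t ht)
  · obtain ⟨C, hC⟩ := h.bound k
    obtain ⟨D, hD⟩ := h'.bound k
    refine ⟨2 * C + 2 * D, fun t ht => ?_⟩
    have iu : Integrable (fun x => iteratedDeriv k (u t) x ^ 2) := (h.memLp k t ht).integrable_sq
    have iv : Integrable (fun x => iteratedDeriv k (v t) x ^ 2) := (h'.memLp k t ht).integrable_sq
    calc (∫ x, iteratedDeriv k (fun x => u t x + v t x) x ^ 2)
        ≤ ∫ x, (2 * iteratedDeriv k (u t) x ^ 2 + 2 * iteratedDeriv k (v t) x ^ 2) := by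
          refine integral_mono_of_nonneg (Eventually.of_forall fun x => sq_nonneg _)
            ((iu.const_mul 2).add (iv.const_mul 2)) (Eventually.of_forall fun x => ?_)
          simp only
          rw [key k t ht x]
          nlinarith [sq_nonneg (iteratedDeriv k (u t) x - iteratedDeriv k (v t) x)]
      _ = 2 * (∫ x, iteratedDeriv k (u t) x ^ 2) + 2 * ∫ x, iteratedDeriv k (v t) x ^ 2 := by
          rw [integral_add (iu.const_mul 2) (iv.const_mul 2), integral_const_mul,
            integral_const_mul]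
      _ ≤ _ := by linarith [hC t ht, hD t ht]

theorem HInf_sub {u v : ℝ → ℝ → ℝ} {t1 t2 : ℝ} (h : HInf u t1 t2) (h' : HInf v t1 t2) :
    HInf (fun t x => u t x - v t x) t1 t2 := by
  refine hinf_congr (HInf_add h (HInf_neg h')) fun t _ => ?_
  funext x
  ring

theorem HInf_const_mul {u : ℝ → ℝ → ℝ} {t1 t2 : ℝ} (h : HInf u t1 t2) (c : ℝ) :
    HInf (fun t x => c * u t x) t1 t2 := by
  have key : ∀ k : ℕ, ∀ t, iteratedDeriv k (fun x => c * u t x) =
      fun x => c * iteratedDeriv k (u t) x := fun k t => funext fun x =>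
    iteratedDeriv_const_mul_field c (u t)
  refine ⟨fun t ht => contDiff_const.mul (h.smooth t ht), fun k => ?_, fun k t ht => ?_,
    fun k => ?_⟩
  · have hc : ContinuousOn (fun p : ℝ × ℝ => c * iteratedDeriv k (u p.1) p.2)
        (Icc t1 t2 ×ˢ univ) := continuousOn_const.mul (h.cont k)
    refine hc.congr fun p _ => ?_
    simp only [key]
  · rw [key]
    exact (h.memLp k t ht).const_mul c
  · obtain ⟨C, hC⟩ := h.bound k
    refine ⟨c ^ 2 * C, fun t ht => ?_⟩
    simp only [key, mul_pow]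
    rw [integral_const_mul]
    exact mul_le_mul_of_nonneg_left (hC t ht) (sq_nonneg c)

theorem memLp_mul_bdd {f g : ℝ → ℝ} {C : ℝ} (hf : Continuous f) (hC : ∀ x, |f x| ≤ C)
    (hg : MemLp g 2) : MemLp (fun x => f x * g x) 2 := by
  have hC0 : 0 ≤ C := le_trans (abs_nonneg _) (hC 0)
  refine MemLp.of_le_mul (c := C) hg (hf.aestronglyMeasurable.mul hg.aestronglyMeasurable)
    (Eventually.of_forall fun x => ?_)
  rw [norm_mul, Real.norm_eq_abs, Real.norm_eq_abs]
  exact mul_le_mul_of_nonneg_right (hC x) (abs_nonneg _)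

theorem sum_sq_le {ι : Type*} (s : Finset ι) (c : ι → ℝ) :
    (∑ i ∈ s, c i) ^ 2 ≤ (s.card : ℝ) * ∑ i ∈ s, c i ^ 2 := by
  exact sq_sum_le_card_mul_sum_sq

theorem HInf_mul {u v : ℝ → ℝ → ℝ} {t1 t2 : ℝ} (h : HInf u t1 t2) (h' : HInf v t1 t2) :
    HInf (fun t x => u t x * v t x) t1 t2 := by
  have key : ∀ k : ℕ, ∀ t ∈ Icc t1 t2, ∀ x, iteratedDeriv k (fun x => u t x * v t x) x =
      ∑ i ∈ Finset.range (k + 1), (k.choose i : ℝ) * iteratedDeriv i (u t) x *
        iteratedDeriv (k - i) (v t) x := by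
    intro k t ht x
    exact iteratedDeriv_fun_mul ((h.smooth t ht).of_le (by exact_mod_cast le_top)).contDiffAt
      ((h'.smooth t ht).of_le (by exact_mod_cast le_top)).contDiffAt
  have cu : ∀ k : ℕ, ∀ t ∈ Icc t1 t2, Continuous (iteratedDeriv k (u t)) := fun k t ht =>
    (h.smooth t ht).continuous_iteratedDeriv k (by exact_mod_cast le_top)
  have hm : ∀ k : ℕ, ∀ t ∈ Icc t1 t2, ∀ i : ℕ, MemLp (fun x => (k.choose i : ℝ) *
      iteratedDeriv i (u t) x * iteratedDeriv (k - i) (v t) x) 2 := by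
    intro k t ht i
    obtain ⟨C, hC0, hC⟩ := HInf_sup h i
    exact memLp_mul_bdd (C := (k.choose i : ℝ) * C) (continuous_const.mul (cu i t ht))
      (fun x => by
        rw [abs_mul, Nat.abs_cast]
        exact mul_le_mul_of_nonneg_left (hC t ht x) (Nat.cast_nonneg _)) (h'.memLp (k - i) t ht)
  refine ⟨fun t ht => (h.smooth t ht).mul (h'.smooth t ht), fun k => ?_, fun k t ht => ?_,
    fun k => ?_⟩
  · have : ContinuousOn (fun p : ℝ × ℝ => ∑ i ∈ Finset.range (k + 1), (k.choose i : ℝ) *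
        iteratedDeriv i (u p.1) p.2 * iteratedDeriv (k - i) (v p.1) p.2)
        (Icc t1 t2 ×ˢ univ) :=
      continuousOn_finsetSum _ fun i _ => (continuousOn_const.mul (h.cont i)).mul (h'.cont (k - i))
    exact this.congr fun p hp => key k p.1 hp.1 p.2
  · have e : iteratedDeriv k (fun x => u t x * v t x) = fun x =>
        ∑ i ∈ Finset.range (k + 1), (k.choose i : ℝ) * iteratedDeriv i (u t) x *
        iteratedDeriv (k - i) (v t) x := funext fun x => key k t ht x
    rw [e]
    exact memLp_finsetSum _ fun i _ => hm k t ht i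
  · choose Cu hCu0 hCu using fun i => HInf_sup h i
    choose D hD using fun i => h'.bound i
    refine ⟨((Finset.range (k + 1)).card : ℝ) * ∑ i ∈ Finset.range (k + 1),
      ((k.choose i : ℝ) * Cu i) ^ 2 * D (k - i), fun t ht => ?_⟩
    have iv : ∀ i, Integrable (fun x => iteratedDeriv i (v t) x ^ 2) := fun i =>
      (h'.memLp i t ht).integrable_sq
    calc (∫ x, iteratedDeriv k (fun x => u t x * v t x) x ^ 2)
        ≤ ∫ x, ((Finset.range (k + 1)).card : ℝ) * ∑ i ∈ Finset.range (k + 1),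
          ((k.choose i : ℝ) * Cu i) ^ 2 * iteratedDeriv (k - i) (v t) x ^ 2 := by
          refine integral_mono_of_nonneg (Eventually.of_forall fun x => sq_nonneg _)
            ((integrable_finsetSum _ fun i _ => (iv (k - i)).const_mul _).const_mul _)
            (Eventually.of_forall fun x => ?_)
          simp only
          rw [key k t ht x]
          refine (sum_sq_le _ _).trans ?_
          refine mul_le_mul_of_nonneg_left (Finset.sum_le_sum fun i _ => ?_) (Nat.cast_nonneg _)
          rw [mul_pow]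
          refine mul_le_mul_of_nonneg_right ?_ (sq_nonneg _)
          rw [← sq_abs, abs_mul, Nat.abs_cast]
          refine pow_le_pow_left₀ (by positivity) ?_ 2
          exact mul_le_mul_of_nonneg_left (hCu i t ht x) (Nat.cast_nonneg _)
      _ = ((Finset.range (k + 1)).card : ℝ) * ∑ i ∈ Finset.range (k + 1),
          ((k.choose i : ℝ) * Cu i) ^ 2 * ∫ x, iteratedDeriv (k - i) (v t) x ^ 2 := by
          rw [integral_const_mul, integral_finsetSum _ fun i _ => (iv (k - i)).const_mul _]
          simp only [integral_const_mul]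
      _ ≤ _ := by
          refine mul_le_mul_of_nonneg_left (Finset.sum_le_sum fun i _ => ?_) (Nat.cast_nonneg _)
          exact mul_le_mul_of_nonneg_left (hD (k - i) t ht) (by positivity)

theorem HInf_pow5 {u : ℝ → ℝ → ℝ} {t1 t2 : ℝ} (h : HInf u t1 t2) :
    HInf (fun t x => u t x ^ 5) t1 t2 := by
  have h2 := HInf_mul h h
  have h4 := HInf_mul h2 h2
  have h5 := HInf_mul h4 h
  refine hinf_congr h5 fun t _ => ?_
  funext x
  ring

theorem HInf_flux {u : ℝ → ℝ → ℝ} {t1 t2 : ℝ} (h : HInf u t1 t2) :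
    HInf (fun t x => flux (u t) x) t1 t2 := by
  have h2 := HInf_deriv (HInf_deriv h)
  have := HInf_add h2 (HInf_pow5 h)
  refine hinf_congr this fun t _ => ?_
  funext x
  unfold flux
  rw [iteratedDeriv_succ, iteratedDeriv_one]

theorem HInf_wflux {u : ℝ → ℝ → ℝ} {t1 t2 : ℝ} (h : HInf u t1 t2) :
    HInf (fun t x => - deriv (flux (u t)) x) t1 t2 := by
  have := HInf_neg (HInf_deriv (HInf_flux h))
  exact this

end Pool.Agent.Helper26.KV
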