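import Pool.Agent.Helper25.KV.Goals

/-!
# Project KV, goal HS
-/

namespace Pool.Agent.Helper26.KV

open Real MeasureTheory Set Filter Topology
open scoped ENNReal
open Pool.Agent.Helper25.KV

/-- squared `L²` norm of a difference -/
noncomputable def dn (f : ℝ → ℝ) (h : ℝ) : ℝ≥0∞ := ∫⁻ x, ENNReal.ofReal ((f (x + h) - f x) ^ 2)

theorem dn_neg (f : ℝ → ℝ) (h : ℝ) : dn f (-h) = dn f h := by
  unfold dn
  rw [← lintegral_add_right_eq_self (fun x => ENNReal.ofReal ((f (x + -h) - f x) ^ 2)) h]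
  refine lintegral_congr fun x => ?_
  congr 1
  have : x + h + -h = x := by ring
  rw [this]; ring

theorem dn_abs (f : ℝ → ℝ) (h : ℝ) : dn f |h| = dn f h := by
  rcases abs_choice h with h1 | h1
  · rw [h1]
  · rw [h1, dn_neg]

theorem gag_eq {f : ℝ → ℝ} (hf : Continuous f) (p : ℝ) :
    (∫⁻ x, ∫⁻ y, ENNReal.ofReal ((f x - f y) ^ 2 / |x - y| ^ p)) =
      ∫⁻ h, ENNReal.ofReal (1 / |h| ^ p) * dn f h := by
  have e1 : (∫⁻ x, ∫⁻ y, ENNReal.ofReal ((f x - f y) ^ 2 / |x - y| ^ p)) =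
      ∫⁻ x, ∫⁻ h, ENNReal.ofReal ((f x - f (x + h)) ^ 2 / |h| ^ p) := by
    refine lintegral_congr fun x => ?_
    rw [← lintegral_add_left_eq_self (fun y => ENNReal.ofReal ((f x - f y) ^ 2 / |x - y| ^ p)) x]
    refine lintegral_congr fun h => ?_
    have : x - (x + h) = -h := by ring
    rw [this, abs_neg]
  rw [e1, lintegral_lintegral_swap]
  · refine lintegral_congr fun h => ?_
    unfold dn
    rw [← lintegral_const_mul _ (by fun_prop)]
    refine lintegral_congr fun x => ?_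
    rw [← ENNReal.ofReal_mul (by positivity)]
    congr 1
    ring
  · apply Measurable.aemeasurable
    have hm : Measurable f := hf.measurable
    simp only [Function.uncurry_def]
    fun_prop

theorem dn_small {f : ℝ → ℝ} {B r h : ℝ} (hi : Integrable (fun x => (f (x + h) - f x) ^ 2))
    (hb : (∫ x, (f (x + h) - f x) ^ 2) ≤ B * h ^ r) : dn f h ≤ ENNReal.ofReal (B * h ^ r) := by
  unfold dn
  rw [← ofReal_integral_eq_lintegral_ofReal hi (Eventually.of_forall fun x => sq_nonneg _)]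
  exact ENNReal.ofReal_le_ofReal hb

theorem dn_large {f : ℝ → ℝ} (hf : Continuous f) {A h : ℝ} (hi : Integrable (fun x => f x ^ 2))
    (hb : (∫ x, f x ^ 2) ≤ A) : dn f h ≤ ENNReal.ofReal (4 * A) := by
  unfold dn
  have hm : Measurable f := hf.measurable
  have h0 : (∫⁻ x, ENNReal.ofReal (f x ^ 2)) ≤ ENNReal.ofReal A := by
    rw [← ofReal_integral_eq_lintegral_ofReal hi (Eventually.of_forall fun x => sq_nonneg _)]
    exact ENNReal.ofReal_le_ofReal hb
  have h1 : (∫⁻ x, ENNReal.ofReal (f (x + h) ^ 2)) ≤ ENNReal.ofReal A := by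
    rw [lintegral_add_right_eq_self (fun x => ENNReal.ofReal (f x ^ 2)) h]; exact h0
  have hA : 0 ≤ A := le_trans (integral_nonneg fun x => sq_nonneg _) hb
  calc (∫⁻ x, ENNReal.ofReal ((f (x + h) - f x) ^ 2))
      ≤ ∫⁻ x, (2 * ENNReal.ofReal (f (x + h) ^ 2) + 2 * ENNReal.ofReal (f x ^ 2)) := by
        refine lintegral_mono fun x => ?_
        have e2 : (2 : ℝ≥0∞) = ENNReal.ofReal 2 := by simp
        rw [e2, ← ENNReal.ofReal_mul (by norm_num), ← ENNReal.ofReal_mul (by norm_num),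
          ← ENNReal.ofReal_add (by positivity) (by positivity)]
        apply ENNReal.ofReal_le_ofReal
        nlinarith [sq_nonneg (f (x + h) + f x)]
    _ = 2 * (∫⁻ x, ENNReal.ofReal (f (x + h) ^ 2)) + 2 * ∫⁻ x, ENNReal.ofReal (f x ^ 2) := by
        rw [lintegral_add_left (by fun_prop), lintegral_const_mul _ (by fun_prop),
          lintegral_const_mul _ (by fun_prop)]
    _ ≤ 2 * ENNReal.ofReal A + 2 * ENNReal.ofReal A := by gcongr
    _ = ENNReal.ofReal (4 * A) := by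
        have e2 : (2 : ℝ≥0∞) = ENNReal.ofReal 2 := by simp
        rw [e2, ← ENNReal.ofReal_mul (by norm_num),
          ← ENNReal.ofReal_add (by positivity) (by positivity)]
        congr 1; ring

theorem lint_abs (g : ℝ → ℝ≥0∞) :
    (∫⁻ h, g |h|) = 2 * ∫⁻ h in Ioi (0 : ℝ), g h := by
  have h1 : (∫⁻ h in Ioi (0 : ℝ), g |h|) = ∫⁻ h in Ioi (0 : ℝ), g h :=
    setLIntegral_congr_fun measurableSet_Ioi fun h hh => by
      simp only [mem_Ioi] at hh
      rw [abs_of_pos hh]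
  have h2 : (∫⁻ h in Iio (0 : ℝ), g |h|) = ∫⁻ h in Ioi (0 : ℝ), g |h| := by
    have := (Measure.measurePreserving_neg (volume : Measure ℝ)).setLIntegral_comp_preimage_emb
      (Homeomorph.neg ℝ).measurableEmbedding (fun h => g |h|) (Ioi (0 : ℝ))
    have e : (Neg.neg ⁻¹' Ioi (0 : ℝ)) = Iio (0 : ℝ) := by
      ext x; simp
    rw [e] at this
    simpa [abs_neg] using this
  have h3 : (∫⁻ h in Iic (0 : ℝ), g |h|) = ∫⁻ h in Iio (0 : ℝ), g |h| :=
    setLIntegral_congr Iio_ae_eq_Iic.symm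
  rw [← lintegral_add_compl (fun h => g |h|) (measurableSet_Ioi (a := (0 : ℝ))), compl_Ioi, h3, h2,
    h1, two_mul]

theorem lint_small {B r δ : ℝ} (hB : 0 ≤ B) (hr : -1 < r) (hδ : 0 < δ) :
    (∫⁻ h in Ioc (0 : ℝ) δ, ENNReal.ofReal (B * h ^ r)) =
      ENNReal.ofReal (B * (δ ^ (r + 1) / (r + 1))) := by
  have hi : IntervalIntegrable (fun h : ℝ => h ^ r) volume 0 δ :=
    intervalIntegral.intervalIntegrable_rpow' hr
  have hi2 : IntegrableOn (fun h : ℝ => B * h ^ r) (Ioc 0 δ) := by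
    have := (intervalIntegrable_iff_integrableOn_Ioc_of_le hδ.le).1 hi
    exact this.const_mul B
  rw [← ofReal_integral_eq_lintegral_ofReal hi2]
  · congr 1
    rw [integral_const_mul, ← intervalIntegral.integral_of_le hδ.le, integral_rpow (Or.inl hr),
      Real.zero_rpow (by linarith), sub_zero]
  · refine (ae_restrict_iff' measurableSet_Ioc).2 (Eventually.of_forall fun h hh => ?_)
    simp only [mem_Ioc] at hh
    have := hh.1
    show (0 : ℝ) ≤ B * h ^ r
    positivity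

theorem lint_large {A r δ : ℝ} (hA : 0 ≤ A) (hr : r < -1) (hδ : 0 < δ) :
    (∫⁻ h in Ioi δ, ENNReal.ofReal (A * h ^ r)) =
      ENNReal.ofReal (A * (-δ ^ (r + 1) / (r + 1))) := by
  have hi2 : IntegrableOn (fun h : ℝ => A * h ^ r) (Ioi δ) :=
    (integrableOn_Ioi_rpow_of_lt hr hδ).const_mul A
  rw [← ofReal_integral_eq_lintegral_ofReal hi2]
  · congr 1
    rw [integral_const_mul, integral_Ioi_rpow_of_lt hr hδ]
  · refine (ae_restrict_iff' measurableSet_Ioi).2 (Eventually.of_forall fun h hh => ?_)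
    simp only [mem_Ioi] at hh
    have : 0 < h := hδ.trans hh
    show (0 : ℝ) ≤ A * h ^ r
    positivity

theorem thm_HS : H_HS := by
  intro κ ϰ hκ hκϰ hϰ f A B hf hfi hfA hN δ hδ hδ1
  have hA : 0 ≤ A := le_trans (integral_nonneg fun x => sq_nonneg _) hfA
  have hB : 0 ≤ B := by
    have h1 := (hN 1 one_pos le_rfl).2
    rw [Real.one_rpow, mul_one] at h1
    exact le_trans (integral_nonneg fun x => sq_nonneg _) h1
  have h0 : (∫⁻ x, ENNReal.ofReal (f x ^ 2)) ≤ ENNReal.ofReal A := by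
    rw [← ofReal_integral_eq_lintegral_ofReal hfi (Eventually.of_forall fun x => sq_nonneg _)]
    exact ENNReal.ofReal_le_ofReal hfA
  set g : ℝ → ℝ≥0∞ := fun h => ENNReal.ofReal (1 / h ^ (1 + 2 * κ)) * dn f h with hg
  have e1 : (∫⁻ x, ∫⁻ y, ENNReal.ofReal ((f x - f y) ^ 2 / |x - y| ^ (1 + 2 * κ))) =
      2 * ∫⁻ h in Ioi (0 : ℝ), g h := by
    rw [gag_eq hf, ← lint_abs]
    refine lintegral_congr fun h => ?_
    simp only [hg, dn_abs]
  have hsplit : (∫⁻ h in Ioi (0 : ℝ), g h) = (∫⁻ h in Ioc (0 : ℝ) δ, g h) + ∫⁻ h in Ioi δ, g h := by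
    rw [← Ioc_union_Ioi_eq_Ioi hδ.le, lintegral_union measurableSet_Ioi Ioc_disjoint_Ioi_same]
  have hs1 : (∫⁻ h in Ioc (0 : ℝ) δ, g h) ≤
      ENNReal.ofReal (B * (δ ^ (2 * ϰ - 1 - 2 * κ + 1) / (2 * ϰ - 1 - 2 * κ + 1))) := by
    rw [← lint_small hB (by linarith) hδ]
    refine setLIntegral_mono' measurableSet_Ioc fun h hh => ?_
    simp only [mem_Ioc] at hh
    have hh0 := hh.1
    obtain ⟨hi, hb⟩ := hN h hh0 (hh.2.trans hδ1)
    calc g h ≤ ENNReal.ofReal (1 / h ^ (1 + 2 * κ)) * ENNReal.ofReal (B * h ^ (2 * ϰ)) := by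
          simp only [hg]; gcongr; exact dn_small hi hb
      _ = ENNReal.ofReal (B * h ^ (2 * ϰ - 1 - 2 * κ)) := by
          rw [← ENNReal.ofReal_mul (by positivity)]
          congr 1
          have : 2 * ϰ - 1 - 2 * κ = 2 * ϰ - (1 + 2 * κ) := by ring
          rw [this, Real.rpow_sub hh0]
          ring
  have hs2 : (∫⁻ h in Ioi δ, g h) ≤
      ENNReal.ofReal (4 * A * (-δ ^ (-(1 + 2 * κ) + 1) / (-(1 + 2 * κ) + 1))) := by
    rw [← lint_large (by positivity) (by linarith) hδ]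
    refine setLIntegral_mono' measurableSet_Ioi fun h hh => ?_
    simp only [mem_Ioi] at hh
    have hh0 : 0 < h := hδ.trans hh
    calc g h ≤ ENNReal.ofReal (1 / h ^ (1 + 2 * κ)) * ENNReal.ofReal (4 * A) := by
          simp only [hg]; gcongr; exact dn_large hf hfi hfA
      _ = ENNReal.ofReal (4 * A * h ^ (-(1 + 2 * κ))) := by
          rw [← ENNReal.ofReal_mul (by positivity)]
          congr 1
          rw [Real.rpow_neg hh0.le]
          ring
  have e2 : (2 : ℝ≥0∞) = ENNReal.ofReal 2 := by simp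
  have hp1 : 0 ≤ B * (δ ^ (2 * ϰ - 1 - 2 * κ + 1) / (2 * ϰ - 1 - 2 * κ + 1)) := by
    have : 0 < 2 * ϰ - 1 - 2 * κ + 1 := by linarith
    positivity
  have hx : -δ ^ (-(1 + 2 * κ) + 1) / (-(1 + 2 * κ) + 1) = δ ^ (-(2 * κ)) / (2 * κ) := by
    have : -(1 + 2 * κ) + 1 = -(2 * κ) := by ring
    rw [this, neg_div_neg_eq]
  have hp2 : 0 ≤ 4 * A * (-δ ^ (-(1 + 2 * κ) + 1) / (-(1 + 2 * κ) + 1)) := by
    rw [hx]; positivity
  unfold hs
  rw [e1, hsplit]
  calc (∫⁻ x, ENNReal.ofReal (f x ^ 2)) +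
        2 * ((∫⁻ h in Ioc (0 : ℝ) δ, g h) + ∫⁻ h in Ioi δ, g h)
      ≤ ENNReal.ofReal A + 2 * (ENNReal.ofReal
          (B * (δ ^ (2 * ϰ - 1 - 2 * κ + 1) / (2 * ϰ - 1 - 2 * κ + 1))) +
          ENNReal.ofReal (4 * A * (-δ ^ (-(1 + 2 * κ) + 1) / (-(1 + 2 * κ) + 1)))) := by
        gcongr
    _ = ENNReal.ofReal (A + B * δ ^ (2 * (ϰ - κ)) / (ϰ - κ) + 4 * A * δ ^ (-(2 * κ)) / κ) := by
        rw [← ENNReal.ofReal_add hp1 hp2, e2, ← ENNReal.ofReal_mul (by norm_num),
          ← ENNReal.ofReal_add hA (by positivity)]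
        congr 1
        rw [hx]
        have h1 : 2 * ϰ - 1 - 2 * κ + 1 = 2 * (ϰ - κ) := by ring
        have h2 : ϰ - κ ≠ 0 := by linarith
        rw [h1]
        field_simp
        ring

end Pool.Agent.Helper26.KV
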