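import Pool.Agent.Helper33.KV.GoalsF
import Pool.Agent.Helper61.KV.ECL1
import Pool.Agent.Helper61.KV.QF
import Pool.Agent.Helper38.KV.PR
import Pool.Agent.Helper26.KV.HInfAlg

/-!
# Project KV, section F, goal MOD (linear modulation)
-/

namespace Pool.Agent.Helper26.KV

open Real MeasureTheory Set Filter Topology
open Pool.Agent.Helper33.KV Pool.Agent.Helper41.KV

theorem thmE : S_ECL1 := thm_ECL1

theorem int_lin2 {f g : ℝ → ℝ} (hf : Integrable f) (hg : Integrable g) (c d : ℝ) :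
    (∫ y, (c * f y + d * g y)) = c * (∫ y, f y) + d * ∫ y, g y := by
  rw [integral_add (hf.const_mul c) (hg.const_mul d), integral_const_mul, integral_const_mul]

theorem int_lin3 {f g h : ℝ → ℝ} (hf : Integrable f) (hg : Integrable g) (hh : Integrable h)
    (c d e : ℝ) : (∫ y, (c * f y + d * g y + e * h y)) =
      c * (∫ y, f y) + d * (∫ y, g y) + e * ∫ y, h y := by
  have h1 : Integrable (fun y => c * f y + d * g y) := (hf.const_mul c).add (hg.const_mul d)
  rw [integral_add h1 (hh.const_mul e), int_lin2 hf hg, integral_const_mul]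

theorem int_lin4 {f g h k : ℝ → ℝ} (hf : Integrable f) (hg : Integrable g) (hh : Integrable h)
    (hk : Integrable k) (c d e l : ℝ) : (∫ y, (c * f y + d * g y + e * h y + l * k y)) =
      c * (∫ y, f y) + d * (∫ y, g y) + e * (∫ y, h y) + l * ∫ y, k y := by
  have h1 : Integrable (fun y => c * f y + d * g y + e * h y) :=
    ((hf.const_mul c).add (hg.const_mul d)).add (hh.const_mul e)
  rw [integral_add h1 (hk.const_mul l), int_lin3 hf hg hh, integral_const_mul]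

theorem exp_half_int : Integrable (fun y : ℝ => Real.exp (-|y| / 2)) := by
  have hint : Integrable (fun x : ℝ => (8 : ℝ) * (1 + x ^ 2)⁻¹) :=
    integrable_inv_one_add_sq.const_mul _
  refine hint.mono' (by fun_prop) (Eventually.of_forall fun y => ?_)
  rw [Real.norm_eq_abs, abs_of_pos (Real.exp_pos _)]
  have e0 : -|y| / 2 = -(1 / 2 * |y|) := by ring
  rw [e0, Real.exp_neg]
  have h3 : (1 + y ^ 2) / 8 ≤ Real.exp (1 / 2 * |y|) := by
    have h4 := Real.quadratic_le_exp_of_nonneg (show 0 ≤ 1 / 2 * |y| by positivity)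
    have h5 : y ^ 2 = |y| ^ 2 := (sq_abs y).symm
    have h6 := abs_nonneg y
    rw [h5]
    nlinarith
  have h7 : (0 : ℝ) < (1 + y ^ 2) / 8 := by positivity
  calc (Real.exp (1 / 2 * |y|))⁻¹ ≤ ((1 + y ^ 2) / 8)⁻¹ := inv_anti₀ h7 h3
    _ = 8 * (1 + y ^ 2)⁻¹ := by rw [inv_div, div_eq_mul_inv]

theorem isE_Q3 (hQ : S_QF) : IsE (fun y => Q y ^ 3) := by
  have hq := Pool.Agent.Helper38.KV.isE_Q hQ
  have h1 := thmE.2.2.2.2.2.1 _ _ (thmE.2.1 _ (thmE.1 _ hq)) hq
  have h2 := thmE.2.2.2.2.2.1 _ _ (thmE.2.1 _ (thmE.1 _ hq)) h1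
  have e : (fun y => Q y * (Q y * Q y)) = fun y => Q y ^ 3 := by funext y; ring
  rwa [e] at h2

theorem isE_Q' (hQ : S_QF) : IsE (deriv Q) :=
  Pool.Agent.Helper38.KV.E_deriv thmE (Pool.Agent.Helper38.KV.isE_Q hQ)

theorem isE_Lam {f : ℝ → ℝ} (hf : IsE f) : IsE (Lam f) := by
  have h1 := Pool.Agent.Helper38.KV.E_smul thmE (1 / 2) hf
  have h2 := Pool.Agent.Helper38.KV.PE_mul thmE (Pool.Agent.Helper38.KV.P_id thmE)
    (Pool.Agent.Helper38.KV.E_deriv thmE hf)
  have h3 := Pool.Agent.Helper38.KV.E_add thmE h1 h2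
  have e : (fun y => 1 / 2 * f y + y * deriv f y) = Lam f := by
    funext y; unfold Lam; ring
  rwa [e] at h3

/-- exponential bound of a function of class `IsE` -/
theorem isE_bd {f : ℝ → ℝ} (hf : IsE f) :
    ∃ C : ℝ, 0 ≤ C ∧ ∀ y, |f y| ≤ C * Real.exp (-|y| / 2) := by
  obtain ⟨C, hC⟩ := hf.2 0 (1 / 2) (by norm_num)
  refine ⟨|C|, abs_nonneg _, fun y => ?_⟩
  have := hC y
  rw [iteratedDeriv_zero] at this
  refine this.trans ?_
  have e : -(1 / 2 * |y|) = -|y| / 2 := by ring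
  rw [e]
  exact mul_le_mul_of_nonneg_right (le_abs_self C) (Real.exp_pos _).le

section Curve

variable {α t1 t2 : ℝ} (hC : S_CURVE) (h0 : 0 < α) (h1 : α < 1) (ht : 0 < t1)
include hC h0 h1 ht

theorem lam_cont : ContinuousOn (lam α) (Icc t1 t2) := fun t hT =>
  (((hC α h0 h1).1 t (ht.trans_le hT.1)).2.2.2.2.2.2.1).continuousAt.continuousWithinAt

theorem sig_cont : ContinuousOn (sig α) (Icc t1 t2) := fun t hT =>
  (((hC α h0 h1).1 t (ht.trans_le hT.1)).2.2.2.2.2.1).continuousAt.continuousWithinAt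

theorem rho_cont : ContinuousOn (rho α) (Icc t1 t2) := fun t hT =>
  (((hC α h0 h1).1 t (ht.trans_le hT.1)).2.2.2.2.2.2.2).continuousAt.continuousWithinAt

theorem lam_pos {t : ℝ} (hT : t ∈ Icc t1 t2) : 0 < lam α t :=
  ((hC α h0 h1).1 t (ht.trans_le hT.1)).2.1

theorem rho_pos {t : ℝ} (hT : t ∈ Icc t1 t2) : 0 < rho α t :=
  ((hC α h0 h1).1 t (ht.trans_le hT.1)).2.2.1

theorem rho_c1 (h12 : t1 < t2) : ContDiffOn ℝ 1 (rho α) (Icc t1 t2) := by
  have hu : UniqueDiffOn ℝ (Icc t1 t2) := uniqueDiffOn_Icc h12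
  rw [contDiffOn_one_iff_derivWithin hu]
  have hd : ∀ t ∈ Icc t1 t2, HasDerivWithinAt (rho α) (2 * α * rho α t ^ 2 / lam α t ^ 3)
      (Icc t1 t2) t := fun t hT =>
    (((hC α h0 h1).1 t (ht.trans_le hT.1)).2.2.2.2.2.2.2).hasDerivWithinAt
  refine ⟨fun t hT => (hd t hT).differentiableWithinAt, ?_⟩
  have hc : ContinuousOn (fun t => 2 * α * rho α t ^ 2 / lam α t ^ 3) (Icc t1 t2) := by
    refine ContinuousOn.div ?_ ?_ ?_
    · exact continuousOn_const.mul ((rho_cont hC h0 h1 ht).pow 2)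
    · exact (lam_cont hC h0 h1 ht).pow 3
    · intro t hT
      exact pow_ne_zero _ (lam_pos hC h0 h1 ht hT).ne'
  exact hc.congr fun t hT => (hd t hT).derivWithin (hu t hT)

theorem inn_bdd {u : ℝ → ℝ → ℝ} (hu : HInf u t1 t2) :
    ∃ M : ℝ, 0 ≤ M ∧ ∀ t ∈ Icc t1 t2, ∀ y, |inn α u t y| ≤ M := by
  obtain ⟨C, hC0, hb⟩ := HInf_sup hu 0
  refine ⟨Real.sqrt (lam α t2) * C, by positivity, fun t hT y => ?_⟩
  unfold inn
  rw [abs_mul, abs_of_nonneg (Real.sqrt_nonneg _)]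
  have hm := ((hC α h0 h1).2.1 t t2 (ht.trans_le hT.1) hT.2).2.1
  have := hb t hT (sig α t + lam α t * y)
  rw [iteratedDeriv_zero] at this
  exact mul_le_mul (Real.sqrt_le_sqrt hm) this (abs_nonneg _) (Real.sqrt_nonneg _)

theorem inn_cont_t {u : ℝ → ℝ → ℝ} (hu : HInf u t1 t2) (y : ℝ) :
    ContinuousOn (fun t => inn α u t y) (Icc t1 t2) := by
  unfold inn
  refine ContinuousOn.mul ?_ ?_
  · exact (lam_cont hC h0 h1 ht).sqrt
  · have h := hu.cont 0
    simp only [iteratedDeriv_zero] at h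
    have hg : ContinuousOn (fun t => (t, sig α t + lam α t * y)) (Icc t1 t2) :=
      continuousOn_id.prodMk ((sig_cont hC h0 h1 ht).add
        ((lam_cont hC h0 h1 ht).mul continuousOn_const))
    exact h.comp hg fun t hT => ⟨hT, mem_univ _⟩

omit hC h0 h1 ht in
theorem inn_cont_y {u : ℝ → ℝ → ℝ} (hu : HInf u t1 t2) {t : ℝ} (hT : t ∈ Icc t1 t2) :
    Continuous (inn α u t) := by
  have := (hu.smooth t hT).continuous
  unfold inn
  fun_prop

theorem inn_int {u : ℝ → ℝ → ℝ} (hu : HInf u t1 t2) {f : ℝ → ℝ} (hf : IsE f) {t : ℝ}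
    (hT : t ∈ Icc t1 t2) : Integrable (fun y => inn α u t y * f y) := by
  obtain ⟨M, _, hM⟩ := inn_bdd hC h0 h1 ht hu
  have hi : Integrable f := Pool.Agent.Helper38.KV.E_int thmE hf
  refine Integrable.mono' (hi.abs.const_mul M)
    ((inn_cont_y hu hT).aestronglyMeasurable.mul hf.1.continuous.aestronglyMeasurable)
    (Eventually.of_forall fun y => ?_)
  rw [norm_mul, Real.norm_eq_abs, Real.norm_eq_abs]
  exact mul_le_mul_of_nonneg_right (hM t hT y) (abs_nonneg _)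

theorem pair_cont {u : ℝ → ℝ → ℝ} (hu : HInf u t1 t2) {f : ℝ → ℝ} (hf : IsE f) :
    ContinuousOn (fun t => ∫ y, inn α u t y * f y) (Icc t1 t2) := by
  obtain ⟨M, _, hM⟩ := inn_bdd hC h0 h1 ht hu
  have hi : Integrable f := Pool.Agent.Helper38.KV.E_int thmE hf
  refine continuousOn_of_dominated (bound := fun y => M * |f y|) (fun t hT => ?_) (fun t hT => ?_)
    (hi.abs.const_mul M) (Eventually.of_forall fun y => ?_)
  · exact (inn_cont_y hu hT).aestronglyMeasurable.mul hf.1.continuous.aestronglyMeasurable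
  · refine Eventually.of_forall fun y => ?_
    rw [norm_mul, Real.norm_eq_abs, Real.norm_eq_abs]
    exact mul_le_mul_of_nonneg_right (hM t hT y) (abs_nonneg _)
  · exact (inn_cont_t hC h0 h1 ht hu y).mul continuousOn_const

/-- the pairings are `C¹` -/
theorem pair_c1 (hW : S_WEAK) (h12 : t1 < t2) {u w : ℝ → ℝ → ℝ} (hu : HInf u t1 t2)
    (hw : HInf w t1 t2) (hd : HasTimeDeriv u w t1 t2) {f : ℝ → ℝ} (hf : IsE f) :
    ContDiffOn ℝ 1 (fun t => ∫ y, inn α u t y * f y) (Icc t1 t2) := by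
  have hun : UniqueDiffOn ℝ (Icc t1 t2) := uniqueDiffOn_Icc h12
  rw [contDiffOn_one_iff_derivWithin hun]
  have H := hW α h0 h1 u w t1 t2 ht h12 hu hw hd f hf
  refine ⟨fun t hT => (H t hT).differentiableWithinAt, ?_⟩
  have hf' : IsE (deriv f) := Pool.Agent.Helper38.KV.E_deriv thmE hf
  have hL : IsE (Lam f) := isE_Lam hf
  have hc : ContinuousOn (fun t => (∫ y, inn α w t y * f y) + (1 / lam α t ^ 3) *
      (-(∫ y, inn α u t y * deriv f y) - (2 * α + 1) * rho α t * ∫ y, inn α u t y * Lam f y))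
      (Icc t1 t2) := by
    refine (pair_cont hC h0 h1 ht hw hf).add (ContinuousOn.mul ?_ (ContinuousOn.sub ?_ ?_))
    · refine ContinuousOn.div continuousOn_const ((lam_cont hC h0 h1 ht).pow 3) fun t hT => ?_
      exact pow_ne_zero _ (lam_pos hC h0 h1 ht hT).ne'
    · exact (pair_cont hC h0 h1 ht hu hf').neg
    · exact (continuousOn_const.mul (rho_cont hC h0 h1 ht)).mul (pair_cont hC h0 h1 ht hu hL)
  refine hc.congr fun t hT => ?_
  rw [(H t hT).derivWithin (hun t hT)]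
  congr 2
  have i1 := inn_int hC h0 h1 ht hu hf' hT
  have i2 := inn_int hC h0 h1 ht hu hL hT
  have e1 := int_lin2 i1 i2 (-1) (-((2 * α + 1) * rho α t))
  have e2 : (∫ y, inn α u t y * (-deriv f y - (2 * α + 1) * rho α t * Lam f y)) =
      ∫ y, (-1 * (inn α u t y * deriv f y) + -((2 * α + 1) * rho α t) *
        (inn α u t y * Lam f y)) := by
    refine integral_congr_ae (Eventually.of_forall fun y => ?_)
    simp only
    ring
  rw [e2, e1]
  ring

end Curve

theorem ints_tauA {α : ℝ} {Z : ℝ → ℝ} (hA : ∀ ρ, IsE (tauA α Z ρ)) {g : ℝ → ℝ} (hg : IsE g)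
    (ρ : ℝ) : (∫ y, tauA α Z ρ y * g y) = (1 - ρ) * (∫ y, tauA α Z 0 y * g y)
      + ρ * ∫ y, tauA α Z 1 y * g y := by
  have i : ∀ r, Integrable (fun y => tauA α Z r y * g y) := fun r =>
    thmE.2.2.2.2.2.2.2.2.2.2.2.2.2.2.2.1 _ _ (thmE.2.1 _ (thmE.1 _ (hA r))) hg
  rw [← int_lin2 (i 0) (i 1)]
  refine integral_congr_ae (Eventually.of_forall fun y => ?_)
  simp only [tauA]
  ring

theorem ints_tauB {α : ℝ} {Z V2 : ℝ → ℝ} (hA : ∀ ρ, IsE (tauB α Z V2 ρ)) {g : ℝ → ℝ}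
    (hg : IsE g) (ρ : ℝ) : (∫ y, tauB α Z V2 ρ y * g y) =
      (1 - ρ ^ 2) * (∫ y, tauB α Z V2 0 y * g y)
      + (ρ + ρ ^ 2) / 2 * (∫ y, tauB α Z V2 1 y * g y)
      + (ρ ^ 2 - ρ) / 2 * ∫ y, tauB α Z V2 (-1) y * g y := by
  have i : ∀ r, Integrable (fun y => tauB α Z V2 r y * g y) := fun r =>
    thmE.2.2.2.2.2.2.2.2.2.2.2.2.2.2.2.1 _ _ (thmE.2.1 _ (thmE.1 _ (hA r))) hg
  rw [← int_lin3 (i 0) (i 1) (i (-1))]
  refine integral_congr_ae (Eventually.of_forall fun y => ?_)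
  simp only [tauB]
  ring

/-- **MOD** -/
theorem thm_MOD (hQ : S_QF) (_hE : S_ECL1) (hC : S_CURVE) (hN : S_IDN) (hT : S_TAUB)
    (hW : S_WEAK) : S_MOD := by
  intro α K C n Z Y V2 h0 h1 hZ hY hV
  obtain ⟨hcls, C1, ρ0, hρ0, hρ01, hbd⟩ := hT α Z Y V2 hZ hY hV
  obtain ⟨_, _, _, _, _, _, _, _, hq4, hq2, _⟩ := hN α Z Y V2 hZ hY hV
  have hA : ∀ ρ, IsE (tauA α Z ρ) := fun ρ => (hcls ρ).1
  have hB : ∀ ρ, IsE (tauB α Z V2 ρ) := fun ρ => (hcls ρ).2.1
  have hE3 := isE_Q3 hQ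
  have hE' := isE_Q' hQ
  set q4 : ℝ := ∫ y, Q y ^ 4 with hq4d
  set q2 : ℝ := ∫ y, deriv Q y ^ 2 with hq2d
  set e0 : ℝ := min q4 q2 / 16 with he0
  have he0p : 0 < e0 := by
    have : 0 < min q4 q2 := lt_min hq4 hq2
    positivity
  have he4 : e0 ≤ q4 / 16 := by
    have : min q4 q2 ≤ q4 := min_le_left _ _
    linarith
  have he2 : e0 ≤ q2 / 16 := by
    have : min q4 q2 ≤ q2 := min_le_right _ _
    linarith
  have hC1 : 0 ≤ C1 := by
    have := (hbd ρ0 hρ0.le le_rfl).2.2.2.2.2.1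
    have h' : 0 ≤ C1 * ρ0 := (abs_nonneg _).trans this
    exact nonneg_of_mul_nonneg_left h' hρ0
  obtain ⟨K3, hK3, hb3⟩ := isE_bd hE3
  obtain ⟨K1, hK1, hb1⟩ := isE_bd hE'
  set ρ1 : ℝ := min ρ0 (e0 / (C1 + 1)) with hρ1
  have hρ1p : 0 < ρ1 := lt_min hρ0 (by positivity)
  set M : ℝ := q4 + q2 with hM
  have hMp : 0 < M := by positivity
  refine ⟨ρ1, 2 * M * (K3 + K1) / (q4 * q2 / 8), hρ1p, ?_⟩
  intro N0 T W Wt r r' hT0 hBg u t1 t2 ht1 h12 ht2 hrt hsol
  have hu := hsol.hinf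
  have hw := HInf_wflux hu
  obtain ⟨hWi, hWti, hWd⟩ := hBg.hinf t1 t2 ht1 h12.le ht2
  have hrho : ∀ t ∈ Icc t1 t2, 0 ≤ rho α t ∧ rho α t ≤ ρ0 ∧ C1 * rho α t ≤ e0 := by
    intro t hTt
    have hp := rho_pos hC h0 h1 ht1 hTt
    have hle : rho α t ≤ ρ1 := (((hC α h0 h1).2.1 t t2 (ht1.trans_le hTt.1) hTt.2).2.2).trans hrt
    refine ⟨hp.le, hle.trans (min_le_left _ _), ?_⟩
    have h3 : rho α t ≤ e0 / (C1 + 1) := hle.trans (min_le_right _ _)
    rw [le_div_iff₀ (by positivity)] at h3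
    nlinarith
  -- the matrix
  set m11 : ℝ → ℝ := fun t => ∫ y, tauA α Z (rho α t) y * Q y ^ 3 with hm11
  set m12 : ℝ → ℝ := fun t => ∫ y, tauB α Z V2 (rho α t) y * Q y ^ 3 with hm12
  set m21 : ℝ → ℝ := fun t => ∫ y, tauA α Z (rho α t) y * deriv Q y with hm21
  set m22 : ℝ → ℝ := fun t => ∫ y, tauB α Z V2 (rho α t) y * deriv Q y with hm22
  have b11 : ∀ t ∈ Icc t1 t2, |m11 t - q4 / 4| ≤ e0 := fun t hTt =>
    ((hbd _ (hrho t hTt).1 (hrho t hTt).2.1).2.2.2.1).trans (hrho t hTt).2.2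
  have b12 : ∀ t ∈ Icc t1 t2, |m12 t| ≤ e0 := fun t hTt =>
    ((hbd _ (hrho t hTt).1 (hrho t hTt).2.1).2.2.2.2.1).trans (hrho t hTt).2.2
  have b21 : ∀ t ∈ Icc t1 t2, |m21 t| ≤ e0 := fun t hTt =>
    ((hbd _ (hrho t hTt).1 (hrho t hTt).2.1).2.2.2.2.2.1).trans (hrho t hTt).2.2
  have b22 : ∀ t ∈ Icc t1 t2, |m22 t - q2| ≤ e0 := fun t hTt =>
    ((hbd _ (hrho t hTt).1 (hrho t hTt).2.1).2.2.2.2.2.2).trans (hrho t hTt).2.2
  have hΔ : ∀ t ∈ Icc t1 t2, q4 * q2 / 8 ≤ m11 t * m22 t - m12 t * m21 t := by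
    intro t hTt
    have c11 := abs_le.1 (b11 t hTt)
    have c22 := abs_le.1 (b22 t hTt)
    have p1 : q4 * 3 / 16 ≤ m11 t := by linarith
    have p2 : q2 * 15 / 16 ≤ m22 t := by linarith
    have p3 : (q4 * 3 / 16) * (q2 * 15 / 16) ≤ m11 t * m22 t :=
      mul_le_mul p1 p2 (by positivity) (le_trans (by positivity) p1)
    have p4 : |m12 t * m21 t| ≤ (q4 / 16) * (q2 / 16) := by
      rw [abs_mul]
      exact mul_le_mul ((b12 t hTt).trans he4) ((b21 t hTt).trans he2) (abs_nonneg _)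
        (by positivity)
    have p5 := abs_le.1 p4
    nlinarith [mul_pos hq4 hq2]
  -- smoothness in time
  have hrc := rho_c1 hC h0 h1 ht1 h12
  have s11 : ContDiffOn ℝ 1 m11 (Icc t1 t2) := by
    have h : ContDiffOn ℝ 1 (fun t => (1 - rho α t) * (∫ y, tauA α Z 0 y * Q y ^ 3)
        + rho α t * ∫ y, tauA α Z 1 y * Q y ^ 3) (Icc t1 t2) :=
      ((contDiffOn_const.sub hrc).mul contDiffOn_const).add (hrc.mul contDiffOn_const)
    exact h.congr fun t _ => ints_tauA hA hE3 _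
  have s21 : ContDiffOn ℝ 1 m21 (Icc t1 t2) := by
    have h : ContDiffOn ℝ 1 (fun t => (1 - rho α t) * (∫ y, tauA α Z 0 y * deriv Q y)
        + rho α t * ∫ y, tauA α Z 1 y * deriv Q y) (Icc t1 t2) :=
      ((contDiffOn_const.sub hrc).mul contDiffOn_const).add (hrc.mul contDiffOn_const)
    exact h.congr fun t _ => ints_tauA hA hE' _
  have sB : ∀ g : ℝ → ℝ, IsE g →
      ContDiffOn ℝ 1 (fun t => ∫ y, tauB α Z V2 (rho α t) y * g y) (Icc t1 t2) := by
    intro g hg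
    have h : ContDiffOn ℝ 1 (fun t => (1 - rho α t ^ 2) * (∫ y, tauB α Z V2 0 y * g y)
      + (rho α t + rho α t ^ 2) / 2 * (∫ y, tauB α Z V2 1 y * g y)
      + (rho α t ^ 2 - rho α t) / 2 * ∫ y, tauB α Z V2 (-1) y * g y) (Icc t1 t2) :=
      (((contDiffOn_const.sub (hrc.pow 2)).mul contDiffOn_const).add
        (((hrc.add (hrc.pow 2)).div_const 2).mul contDiffOn_const)).add
        ((((hrc.pow 2).sub hrc).div_const 2).mul contDiffOn_const)
    exact h.congr fun t _ => ints_tauB hB hg _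
  have s12 : ContDiffOn ℝ 1 m12 (Icc t1 t2) := sB _ hE3
  have s22 : ContDiffOn ℝ 1 m22 (Icc t1 t2) := sB _ hE'
  set X : ℝ → ℝ := fun t => (∫ y, inn α u t y * Q y ^ 3) - ∫ y, inn α W t y * Q y ^ 3 with hX
  set X' : ℝ → ℝ := fun t => (∫ y, inn α u t y * deriv Q y) - ∫ y, inn α W t y * deriv Q y
    with hX'
  have sX : ContDiffOn ℝ 1 X (Icc t1 t2) :=
    (pair_c1 hC h0 h1 ht1 hW h12 hu hw hsol.eqn hE3).sub
      (pair_c1 hC h0 h1 ht1 hW h12 hWi hWti hWd hE3)
  have sX' : ContDiffOn ℝ 1 X' (Icc t1 t2) :=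
    (pair_c1 hC h0 h1 ht1 hW h12 hu hw hsol.eqn hE').sub
      (pair_c1 hC h0 h1 ht1 hW h12 hWi hWti hWd hE')
  have sD : ContDiffOn ℝ 1 (fun t => m11 t * m22 t - m12 t * m21 t) (Icc t1 t2) :=
    (s11.mul s22).sub (s12.mul s21)
  have hD0 : ∀ t ∈ Icc t1 t2, m11 t * m22 t - m12 t * m21 t ≠ 0 := fun t hTt =>
    (lt_of_lt_of_le (by positivity) (hΔ t hTt)).ne'
  set a : ℝ → ℝ := fun t => (m22 t * X t - m12 t * X' t) / (m11 t * m22 t - m12 t * m21 t) with ha
  set b : ℝ → ℝ := fun t => (m11 t * X' t - m21 t * X t) / (m11 t * m22 t - m12 t * m21 t) with hb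
  have sa : ContDiffOn ℝ 1 a (Icc t1 t2) := ((s22.mul sX).sub (s12.mul sX')).div sD hD0
  have sb : ContDiffOn ℝ 1 b (Icc t1 t2) := ((s11.mul sX').sub (s21.mul sX)).div sD hD0
  have hun : UniqueDiffOn ℝ (Icc t1 t2) := uniqueDiffOn_Icc h12
  refine ⟨a, b, derivWithin a (Icc t1 t2), derivWithin b (Icc t1 t2),
    ((contDiffOn_one_iff_derivWithin hun).1 sa).2, ((contDiffOn_one_iff_derivWithin hun).1 sb).2,
    fun t hTt => ⟨(((contDiffOn_one_iff_derivWithin hun).1 sa).1 t hTt).hasDerivWithinAt,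
      (((contDiffOn_one_iff_derivWithin hun).1 sb).1 t hTt).hasDerivWithinAt, ?_, ?_, ?_⟩⟩
  · have eX : (∫ y, etaI α Z V2 u W a b t y * Q y ^ 3) = X t - a t * m11 t - b t * m12 t := by
      have i1 := inn_int hC h0 h1 ht1 hu hE3 hTt
      have i2 := inn_int hC h0 h1 ht1 hWi hE3 hTt
      have i3 : Integrable (fun y => tauA α Z (rho α t) y * Q y ^ 3) :=
        thmE.2.2.2.2.2.2.2.2.2.2.2.2.2.2.2.1 _ _ (thmE.2.1 _ (thmE.1 _ (hA _))) hE3
      have i4 : Integrable (fun y => tauB α Z V2 (rho α t) y * Q y ^ 3) :=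
        thmE.2.2.2.2.2.2.2.2.2.2.2.2.2.2.2.1 _ _ (thmE.2.1 _ (thmE.1 _ (hB _))) hE3
      have e1 := int_lin4 i1 i2 i3 i4 1 (-1) (-a t) (-b t)
      have e2 : (∫ y, etaI α Z V2 u W a b t y * Q y ^ 3) =
          ∫ y, (1 * (inn α u t y * Q y ^ 3) + -1 * (inn α W t y * Q y ^ 3) +
            -a t * (tauA α Z (rho α t) y * Q y ^ 3) +
            -b t * (tauB α Z V2 (rho α t) y * Q y ^ 3)) := by
        refine integral_congr_ae (Eventually.of_forall fun y => ?_)
        simp only [etaI]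
        ring
      rw [e2, e1]
      simp only [hX, hm11, hm12]
      ring
    rw [eX]
    have hDt := hD0 t hTt
    have e3 : a t * (m11 t * m22 t - m12 t * m21 t) = m22 t * X t - m12 t * X' t :=
      div_mul_cancel₀ _ hDt
    have e4 : b t * (m11 t * m22 t - m12 t * m21 t) = m11 t * X' t - m21 t * X t :=
      div_mul_cancel₀ _ hDt
    refine (mul_eq_zero.1 ?_).resolve_right hDt
    calc (X t - a t * m11 t - b t * m12 t) * (m11 t * m22 t - m12 t * m21 t)
        = X t * (m11 t * m22 t - m12 t * m21 t)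
          - (a t * (m11 t * m22 t - m12 t * m21 t)) * m11 t
          - (b t * (m11 t * m22 t - m12 t * m21 t)) * m12 t := by ring
      _ = 0 := by rw [e3, e4]; ring
  · have eX : (∫ y, etaI α Z V2 u W a b t y * deriv Q y) = X' t - a t * m21 t - b t * m22 t := by
      have i1 := inn_int hC h0 h1 ht1 hu hE' hTt
      have i2 := inn_int hC h0 h1 ht1 hWi hE' hTt
      have i3 : Integrable (fun y => tauA α Z (rho α t) y * deriv Q y) :=
        thmE.2.2.2.2.2.2.2.2.2.2.2.2.2.2.2.1 _ _ (thmE.2.1 _ (thmE.1 _ (hA _))) hE'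
      have i4 : Integrable (fun y => tauB α Z V2 (rho α t) y * deriv Q y) :=
        thmE.2.2.2.2.2.2.2.2.2.2.2.2.2.2.2.1 _ _ (thmE.2.1 _ (thmE.1 _ (hB _))) hE'
      have e1 := int_lin4 i1 i2 i3 i4 1 (-1) (-a t) (-b t)
      have e2 : (∫ y, etaI α Z V2 u W a b t y * deriv Q y) =
          ∫ y, (1 * (inn α u t y * deriv Q y) + -1 * (inn α W t y * deriv Q y) +
            -a t * (tauA α Z (rho α t) y * deriv Q y) +
            -b t * (tauB α Z V2 (rho α t) y * deriv Q y)) := by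
        refine integral_congr_ae (Eventually.of_forall fun y => ?_)
        simp only [etaI]
        ring
      rw [e2, e1]
      simp only [hX', hm21, hm22]
      ring
    rw [eX]
    have hDt := hD0 t hTt
    have e3 : a t * (m11 t * m22 t - m12 t * m21 t) = m22 t * X t - m12 t * X' t :=
      div_mul_cancel₀ _ hDt
    have e4 : b t * (m11 t * m22 t - m12 t * m21 t) = m11 t * X' t - m21 t * X t :=
      div_mul_cancel₀ _ hDt
    refine (mul_eq_zero.1 ?_).resolve_right hDt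
    calc (X' t - a t * m21 t - b t * m22 t) * (m11 t * m22 t - m12 t * m21 t)
        = X' t * (m11 t * m22 t - m12 t * m21 t)
          - (a t * (m11 t * m22 t - m12 t * m21 t)) * m21 t
          - (b t * (m11 t * m22 t - m12 t * m21 t)) * m22 t := by ring
      _ = 0 := by rw [e3, e4]; ring
  · -- the bound
    set J : ℝ := ∫ y, |inn α u t y - inn α W t y| * Real.exp (-|y| / 2) with hJ
    have key : ∀ (g : ℝ → ℝ) (Kg : ℝ), IsE g → 0 ≤ Kg → (∀ y, |g y| ≤ Kg * Real.exp (-|y| / 2)) →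
        |(∫ y, inn α u t y * g y) - ∫ y, inn α W t y * g y| ≤ Kg * J := by
      intro g Kg hg hKg hgb
      have i1 := inn_int hC h0 h1 ht1 hu hg hTt
      have i2 := inn_int hC h0 h1 ht1 hWi hg hTt
      obtain ⟨M1, hM1, hMu⟩ := inn_bdd hC h0 h1 ht1 hu
      obtain ⟨M2, hM2, hMw⟩ := inn_bdd hC h0 h1 ht1 hWi
      have hexp := exp_half_int
      have iJ : Integrable (fun y => |inn α u t y - inn α W t y| * Real.exp (-|y| / 2)) := by
        refine Integrable.mono' (hexp.const_mul (M1 + M2)) ?_ (Eventually.of_forall fun y => ?_)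
        · have c1 := inn_cont_y (α := α) hu hTt
          have c2 := inn_cont_y (α := α) hWi hTt
          exact Continuous.aestronglyMeasurable (by fun_prop)
        · rw [Real.norm_eq_abs, abs_mul, abs_abs, abs_of_pos (Real.exp_pos _)]
          refine mul_le_mul_of_nonneg_right ?_ (Real.exp_pos _).le
          exact (abs_sub _ _).trans (add_le_add (hMu t hTt y) (hMw t hTt y))
      rw [← integral_sub i1 i2, hJ, ← integral_const_mul]
      refine (abs_integral_le_integral_abs).trans ?_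
      refine integral_mono_of_nonneg (Eventually.of_forall fun y => abs_nonneg _)
        (iJ.const_mul Kg) (Eventually.of_forall fun y => ?_)
      simp only
      rw [← sub_mul, abs_mul]
      calc |inn α u t y - inn α W t y| * |g y|
          ≤ |inn α u t y - inn α W t y| * (Kg * Real.exp (-|y| / 2)) :=
            mul_le_mul_of_nonneg_left (hgb y) (abs_nonneg _)
        _ = _ := by ring
    have kX : |X t| ≤ K3 * J := key _ K3 hE3 hK3 hb3
    have kX' : |X' t| ≤ K1 * J := key _ K1 hE' hK1 hb1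
    have hJ0 : 0 ≤ J := integral_nonneg fun y => by positivity
    have c11 := abs_le.1 (b11 t hTt)
    have c22 := abs_le.1 (b22 t hTt)
    have n11 : |m11 t| ≤ M := by rw [abs_le]; constructor <;> linarith
    have n22 : |m22 t| ≤ M := by rw [abs_le]; constructor <;> linarith
    have n12 : |m12 t| ≤ M := (b12 t hTt).trans (by linarith)
    have n21 : |m21 t| ≤ M := (b21 t hTt).trans (by linarith)
    have hDp : 0 < q4 * q2 / 8 := by positivity
    have hDt := hΔ t hTt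
    have hDt0 : 0 < m11 t * m22 t - m12 t * m21 t := lt_of_lt_of_le hDp hDt
    have na : |a t| ≤ M * (K3 + K1) * J / (q4 * q2 / 8) := by
      simp only [ha]
      rw [abs_div, abs_of_pos hDt0]
      refine div_le_div₀ (by positivity) ?_ hDp hDt
      calc |m22 t * X t - m12 t * X' t| ≤ |m22 t * X t| + |m12 t * X' t| := abs_sub _ _
        _ ≤ M * (K3 * J) + M * (K1 * J) := by
            rw [abs_mul, abs_mul]
            exact add_le_add (mul_le_mul n22 kX (abs_nonneg _) hMp.le)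
              (mul_le_mul n12 kX' (abs_nonneg _) hMp.le)
        _ = _ := by ring
    have nb : |b t| ≤ M * (K3 + K1) * J / (q4 * q2 / 8) := by
      simp only [hb]
      rw [abs_div, abs_of_pos hDt0]
      refine div_le_div₀ (by positivity) ?_ hDp hDt
      calc |m11 t * X' t - m21 t * X t| ≤ |m11 t * X' t| + |m21 t * X t| := abs_sub _ _
        _ ≤ M * (K1 * J) + M * (K3 * J) := by
            rw [abs_mul, abs_mul]
            exact add_le_add (mul_le_mul n11 kX' (abs_nonneg _) hMp.le)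
              (mul_le_mul n21 kX (abs_nonneg _) hMp.le)
        _ = _ := by ring
    calc |a t| + |b t| ≤ M * (K3 + K1) * J / (q4 * q2 / 8) + M * (K3 + K1) * J / (q4 * q2 / 8) :=
          add_le_add na nb
      _ = _ := by ring

end Pool.Agent.Helper26.KV
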