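import Pool.Agent.Helper48.KV.GoalsG1

/-!
# Project KV, section G, goal HDYN
-/

open MeasureTheory Set Filter Topology

namespace Pool.Agent.Helper26.KV

open Pool.Agent.Helper33.KV Pool.Agent.Helper41.KV Pool.Agent.Helper48.KV

theorem sig_pos' {α t : ℝ} (h0 : 0 < α) (ht : 0 < t) : 0 < sig α t := by
  unfold sig
  exact Real.rpow_pos_of_pos (by positivity) _

theorem lam_pos' {α t : ℝ} (h0 : 0 < α) (ht : 0 < t) : 0 < lam α t := by
  unfold lam
  exact Real.rpow_pos_of_pos (sig_pos' h0 ht) _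

theorem deriv_aff (f : ℝ → ℝ) (a b y : ℝ) :
    deriv (fun y => f (a + b * y)) y = b * deriv f (a + b * y) := by
  have h1 := deriv_comp_mul_left b (fun z => f (a + z)) y
  rw [smul_eq_mul] at h1
  rw [h1, deriv_comp_const_add]

theorem deriv_caff (c : ℝ) (f : ℝ → ℝ) (a b y : ℝ) :
    deriv (fun y => c * f (a + b * y)) y = c * b * deriv f (a + b * y) := by
  rw [deriv_const_mul_field, deriv_aff]
  ring

theorem int_aff (f : ℝ → ℝ) (a : ℝ) {b : ℝ} (hb : 0 < b) :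
    (∫ x, f x) = b * ∫ y, f (a + b * y) := by
  have h1 := Measure.integral_comp_mul_left (fun z => f (a + z)) b
  rw [smul_eq_mul, abs_of_pos (inv_pos.2 hb)] at h1
  rw [h1, integral_add_left_eq_self f a, ← mul_assoc, mul_inv_cancel₀ hb.ne', one_mul]

theorem integrable_aff {f : ℝ → ℝ} (hf : Integrable f) (a : ℝ) {b : ℝ} (hb : 0 < b) :
    Integrable (fun y => f (a + b * y)) := by
  have h1 : Integrable (fun z => f (a + z)) := hf.comp_add_left a
  exact h1.comp_mul_left' hb.ne'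

/-- the pointwise identity (algebra) -/
theorem alg_id (s a b φ φ1 φ2 φ3 y V0 V1 Vt0 E0 E1 E2 S0 S1 : ℝ) (hs : 0 < s) :
    rhsD φ (φ1 / s ^ 2) (φ3 / (s ^ 2) ^ 3) ((s ^ 2) ^ 2 * φ) ((s ^ 2) ^ 2 * (φ1 / s ^ 2))
      ((s ^ 2) ^ 2 * (φ2 / (s ^ 2) ^ 2)) ((s ^ 2) ^ 2 * (φ3 / (s ^ 2) ^ 3)) V0 V1 E0 E1 E2 S0 S1
      + -(φ1 / (s ^ 2) ^ 3 * (1 + a * y + b)) * E0 ^ 2
      + ((s ^ 2) ^ 2 * (-(φ1 / (s ^ 2) ^ 3 * (1 + a * y + b)) + 2 * (a / (s ^ 2) ^ 3) * φ)) *
        (E1 ^ 2 - nGG V0 E0 / 3)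
      - 2 * ((s ^ 2) ^ 2 * φ) * nG2 V0 E0 * Vt0 =
    (s ^ 8)⁻¹ * ((-3 * φ1 * (s ^ 5 * E2) ^ 2
    + (2 * a * φ - φ1 * (4 + a * y + b) + φ3) * (s ^ 3 * E1) ^ 2
    + (-(φ1 * (1 + a * y + b)) + φ3) * (s * E0) ^ 2)
    + (-((2 * a * φ - φ1 * (a * y + b)) * nGG (s * V0) (s * E0) / 3)
    - 2 * φ * nG2 (s * V0) (s * E0) * ((s ^ 2) ^ 3 * (s * Vt0) + s ^ 3 * V1)
    + 2 * φ1 * nG (s * V0) (s * E0) * (s * E0)
    - nG (s * V0) (s * E0) * (4 * φ1 * (s ^ 5 * E2) + 2 * φ2 * (s ^ 3 * E1))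
    - φ1 * nG (s * V0) (s * E0) ^ 2)
    + 2 * φ * ((s ^ 7 * S0) * (s * E0) + (s ^ 9 * S1) * (s ^ 3 * E1)
      - (s ^ 7 * S0) * nG (s * V0) (s * E0))) := by
  unfold rhsD nG nG2 nGG
  field_simp
  ring

section

variable (α K : ℝ) (V Vt e et : ℝ → ℝ → ℝ) (t : ℝ)

theorem inn_d1 (u : ℝ → ℝ → ℝ) (y : ℝ) : deriv (inn α u t) y =
    Real.sqrt (lam α t) * lam α t * deriv (u t) (sig α t + lam α t * y) :=
  deriv_caff (Real.sqrt (lam α t)) (u t) (sig α t) (lam α t) y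

theorem inn_d2 (u : ℝ → ℝ → ℝ) (y : ℝ) : deriv (deriv (inn α u t)) y =
    Real.sqrt (lam α t) * lam α t * lam α t *
      iteratedDeriv 2 (u t) (sig α t + lam α t * y) := by
  have e1 : deriv (inn α u t) = fun y =>
      Real.sqrt (lam α t) * lam α t * deriv (u t) (sig α t + lam α t * y) :=
    funext fun y => inn_d1 α t u y
  rw [e1, deriv_caff, iteratedDeriv_succ, iteratedDeriv_one]

theorem Sin_d (y : ℝ) : deriv (Sin α V e et t) y =
    lam α t ^ 3 * (Real.sqrt (lam α t) * lam α t *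
      deriv (srcS V e et t) (sig α t + lam α t * y)) := by
  have e1 : Sin α V e et t = fun y => lam α t ^ 3 * inn α (srcS V e et) t y := rfl
  rw [e1, deriv_const_mul_field, inn_d1]

variable {α K V Vt e et t}

theorem tInt_eq (h0 : 0 < α) (ht : 0 < t)
    (hp : ∀ x, deriv (pW α K t) x =
        ph1 K (rho α t) ((x - sig α t) / lam α t) / lam α t ∧
      iteratedDeriv 2 (pW α K t) x = ph2 K (rho α t) ((x - sig α t) / lam α t) / lam α t ^ 2 ∧
      iteratedDeriv 3 (pW α K t) x = ph3 K (rho α t) ((x - sig α t) / lam α t) / lam α t ^ 3)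
    (y : ℝ) :
    tInt (pW α K) (pWt α K) (qW α K) (qWt α K) V Vt e et t (sig α t + lam α t * y) =
      (lam α t ^ 4)⁻¹ * hInt α K (rho α t) (inn α V t) (DVf α V Vt t) (inn α e t)
        (Sin α V e et t) y := by
  have hl : 0 < lam α t := lam_pos' h0 ht
  obtain ⟨s, hs, hls⟩ : ∃ s : ℝ, 0 < s ∧ lam α t = s ^ 2 :=
    ⟨Real.sqrt (lam α t), Real.sqrt_pos.2 hl, (Real.sq_sqrt hl.le).symm⟩
  have hsq : Real.sqrt (lam α t) = s := by rw [hls, Real.sqrt_sq hs.le]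
  have hy : (sig α t + lam α t * y - sig α t) / lam α t = y := by
    rw [add_sub_cancel_left, mul_div_cancel_left₀ _ hl.ne']
  set x := sig α t + lam α t * y with hx
  have q0 : ∀ x, qW α K t x = lam α t ^ 2 * pW α K t x := fun x => rfl
  have q1 : deriv (qW α K t) x = lam α t ^ 2 * deriv (pW α K t) x := by
    have : qW α K t = fun x => lam α t ^ 2 * pW α K t x := rfl
    rw [this, deriv_const_mul_field]
  have qk : ∀ k : ℕ, iteratedDeriv k (qW α K t) x = lam α t ^ 2 * iteratedDeriv k (pW α K t) x := by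
    intro k
    have : qW α K t = fun x => lam α t ^ 2 * pW α K t x := rfl
    rw [this, iteratedDeriv_const_mul_field]
  obtain ⟨p1, p2, p3⟩ := hp x
  rw [hy] at p1 p2 p3
  have v1 := inn_d1 α t V y
  have e1 := inn_d1 α t e y
  have e2 := inn_d2 α t e y
  have s1 := Sin_d α V e et t y
  rw [← hx] at v1 e1 e2 s1
  have v0 : inn α V t y = Real.sqrt (lam α t) * V t x := rfl
  have vt0 : inn α Vt t y = Real.sqrt (lam α t) * Vt t x := rfl
  have e0 : inn α e t y = Real.sqrt (lam α t) * e t x := rfl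
  have s0 : Sin α V e et t y = lam α t ^ 3 * (Real.sqrt (lam α t) * srcS V e et t x) := rfl
  unfold tInt hInt freeInt nlInt srcInt DVf
  rw [v0, vt0, e0, s0, v1, e1, e2, s1, q1, qk 2, qk 3, p1, p2, p3]
  unfold pWt qWt qW pW pWt
  rw [hy, hsq, hls]
  have H := alg_id s ((2 * α + 1) * rho α t) (2 * α * K * rho α t) (wt K (rho α t) y)
    (ph1 K (rho α t) y) (ph2 K (rho α t) y) (ph3 K (rho α t) y) y (V t x) (deriv (V t) x)
    (Vt t x) (e t x) (deriv (e t) x) (iteratedDeriv 2 (e t) x) (srcS V e et t x)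
    (deriv (srcS V e et t) x) hs
  have c1 : s * s ^ 2 = s ^ 3 := by ring
  have c2 : s ^ 3 * s ^ 2 = s ^ 5 := by ring
  have c3 : ∀ z : ℝ, (s ^ 2) ^ 3 * (s * z) = s ^ 7 * z := fun z => by ring
  have c4 : ∀ z : ℝ, (s ^ 2) ^ 3 * (s ^ 3 * z) = s ^ 9 * z := fun z => by ring
  have c5 : ((s ^ 2) ^ 4 : ℝ) = s ^ 8 := by ring
  have c6 : (s ^ 2) ^ 3 * (s * Vt t x) = s ^ 7 * Vt t x := by ring
  rw [c1, c2, c5, c4, c3, c3]
  rw [c6] at H
  exact H

theorem dens_eq (h0 : 0 < α) (ht : 0 < t) (y : ℝ) :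
    dens (pW α K t (sig α t + lam α t * y)) (qW α K t (sig α t + lam α t * y))
      (V t (sig α t + lam α t * y)) (e t (sig α t + lam α t * y))
      (deriv (e t) (sig α t + lam α t * y)) =
    (lam α t)⁻¹ * (wt K (rho α t) y * (deriv (inn α e t) y ^ 2 + inn α e t y ^ 2
      - nGG (inn α V t y) (inn α e t y) / 3)) := by
  have hl : 0 < lam α t := lam_pos' h0 ht
  obtain ⟨s, hs, hls⟩ : ∃ s : ℝ, 0 < s ∧ lam α t = s ^ 2 :=
    ⟨Real.sqrt (lam α t), Real.sqrt_pos.2 hl, (Real.sq_sqrt hl.le).symm⟩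
  have hsq : Real.sqrt (lam α t) = s := by rw [hls, Real.sqrt_sq hs.le]
  have hy : (sig α t + lam α t * y - sig α t) / lam α t = y := by
    rw [add_sub_cancel_left, mul_div_cancel_left₀ _ hl.ne']
  have e1 := inn_d1 α t e y
  set x := sig α t + lam α t * y with hx
  have v0 : inn α V t y = Real.sqrt (lam α t) * V t x := rfl
  have e0 : inn α e t y = Real.sqrt (lam α t) * e t x := rfl
  rw [v0, e0, e1]
  unfold dens qW pW
  rw [hy, hsq, hls]
  unfold nGG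
  field_simp
  ring

end

/-- **HDYN** -/
theorem hdyn (h1 : S_TIME) (h2 : S_WTF) (_h3 : S_WT0) : S_HDYN := by
  intro α h0 hα1 K hK t1 t2 V Vt e et ht1 h12 hV hVt hVd he het hed
  obtain ⟨_, hp, hq, hder⟩ := h2 α h0 hα1 K hK t1 t2 ht1 h12
  obtain ⟨i1, i2, i3, i4⟩ := h1 t1 t2 (pW α K) (pWt α K) (qW α K) (qWt α K) V Vt e et h12 hp hq
    hV hVt hVd he het hed
  have hpos : ∀ t ∈ Icc t1 t2, 0 < t := fun t hT => ht1.trans_le hT.1
  have key : ∀ t ∈ Icc t1 t2, ∀ y,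
      hInt α K (rho α t) (inn α V t) (DVf α V Vt t) (inn α e t) (Sin α V e et t) y =
      lam α t ^ 4 * tInt (pW α K) (pWt α K) (qW α K) (qWt α K) V Vt e et t
        (sig α t + lam α t * y) := by
    intro t hT y
    have hl := lam_pos' h0 (hpos t hT)
    rw [tInt_eq h0 (hpos t hT) (hder t hT) y, ← mul_assoc, mul_inv_cancel₀ (pow_pos hl 4).ne',
      one_mul]
  have keyI : ∀ t ∈ Icc t1 t2, (lam α t ^ 3)⁻¹ *
      (∫ y, hInt α K (rho α t) (inn α V t) (DVf α V Vt t) (inn α e t) (Sin α V e et t) y) =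
      ∫ x, tInt (pW α K) (pWt α K) (qW α K) (qWt α K) V Vt e et t x := by
    intro t hT
    have hl := lam_pos' h0 (hpos t hT)
    rw [int_aff (tInt (pW α K) (pWt α K) (qW α K) (qWt α K) V Vt e et t) (sig α t) hl]
    simp only [key t hT]
    rw [integral_const_mul]
    field_simp
  have keyF : ∀ t ∈ Icc t1 t2, fun2 (pW α K) (qW α K) V e t =
      Hf K (rho α t) (inn α V t) (inn α e t) := by
    intro t hT
    have hl := lam_pos' h0 (hpos t hT)
    unfold fun2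
    rw [int_aff (fun x => dens (pW α K t x) (qW α K t x) (V t x) (e t x) (deriv (e t) x))
      (sig α t) hl]
    simp only [dens_eq h0 (hpos t hT)]
    rw [integral_const_mul, ← mul_assoc, mul_inv_cancel₀ hl.ne', one_mul]
    rfl
  refine ⟨fun t hT => ?_, ?_, ?_⟩
  · have hl := lam_pos' h0 (hpos t hT)
    have := (integrable_aff (i1 t hT) (sig α t) hl).const_mul (lam α t ^ 4)
    refine this.congr (Eventually.of_forall fun y => ?_)
    simp only
    rw [key t hT y]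
  · refine i3.congr ?_
    intro t hT
    rw [uIoc_of_le h12] at hT
    exact (keyI t ⟨hT.1.le, hT.2⟩).symm
  · rw [← keyF t2 ⟨h12, le_rfl⟩, ← keyF t1 ⟨le_rfl, h12⟩, i4]
    refine intervalIntegral.integral_congr fun t hT => ?_
    rw [uIcc_of_le h12] at hT
    exact (keyI t hT).symm

end Pool.Agent.Helper26.KV
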